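import Pool.Agent.Helper88.MW.Defs

set_option autoImplicit false

namespace Pool.Agent.Helper25.MW

open Polynomial Module Pool.Agent.Helper88.MW

section field

variable {p : ℕ} [Fact p.Prime] {F : Type} [Field F] [Fintype F] [CharP F p]

theorem chr_exists (ψ : AddChar F ℂ) (x : F) : ∃ a : ZMod p, ψ x = ZMod.stdAddChar a := by
  have hp : p.Prime := Fact.out
  have hp0 : p ≠ 0 := hp.ne_zero
  have h1 : ψ x ^ p = 1 := by
    rw [← AddChar.map_nsmul_eq_pow, nsmul_eq_mul, CharP.cast_eq_zero, zero_mul,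
      AddChar.map_zero_eq_one]
  obtain ⟨i, hi, hi'⟩ := (Complex.isPrimitiveRoot_exp p hp0).eq_pow_of_pow_eq_one h1
  refine ⟨((i : ℤ) : ZMod p), ?_⟩
  rw [ZMod.stdAddChar_coe, ← hi', ← Complex.exp_nat_mul]
  congr 1
  push_cast
  ring

/-- an additive character has values in the roots of unity -/
theorem chr (ψ : AddChar F ℂ) (hψ : ψ ≠ 1) : ∃ τ : F →+ ZMod p, τ ≠ 0 ∧
    ∀ x, ψ x = ZMod.stdAddChar (τ x) := by
  choose t ht using fun x => chr_exists (p := p) ψ x
  have h0 : t 0 = 0 := by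
    apply ZMod.injective_stdAddChar
    rw [← ht, AddChar.map_zero_eq_one, AddChar.map_zero_eq_one]
  refine ⟨⟨⟨t, h0⟩, ?_⟩, ?_, fun x => ht x⟩
  · intro x y
    apply ZMod.injective_stdAddChar
    change ZMod.stdAddChar (t (x + y)) = ZMod.stdAddChar (t x + t y)
    rw [AddChar.map_add_eq_mul, ← ht, ← ht, ← ht, AddChar.map_add_eq_mul]
  · intro h
    apply hψ
    ext x
    have h2 : t x = 0 := by
      have := DFunLike.congr_fun h x
      exact this
    rw [ht x, h2, AddChar.map_zero_eq_one, AddChar.one_apply]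

end field

end Pool.Agent.Helper25.MW
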