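import Pool.Agent.Helper88.MW.Defs

set_option autoImplicit false

namespace Pool.Agent.Helper25.MW

open Polynomial Module Pool.Agent.Helper88.MW

section poly

variable {p : ℕ} [Fact p.Prime] {F : Type} [Field F] [Fintype F] [Algebra (ZMod p) F]

/-- `V_d` is the space of coefficients -/
noncomputable def vEquiv (d : ℕ) : Vd p F d ≃ₗ[ZMod p] (Fin d → F) :=
  (Submodule.restrictScalarsEquiv (ZMod p) F F[X] (Polynomial.degreeLT F d)).restrictScalars
    (ZMod p) |>.trans ((Polynomial.degreeLTEquiv F d).restrictScalars (ZMod p))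

theorem mon_fin (d : ℕ) : FiniteDimensional (ZMod p) (Vd p F d) := by
  have : Module.Finite (ZMod p) F := Module.Finite.of_finite
  exact Module.Finite.equiv (vEquiv (p := p) (F := F) d).symm

theorem mon_finrank (d : ℕ) : finrank (ZMod p) (Vd p F d) = finrank (ZMod p) F * d := by
  have : Module.Finite (ZMod p) F := Module.Finite.of_finite
  rw [LinearEquiv.finrank_eq (vEquiv (p := p) (F := F) d), Module.finrank_pi_fintype]
  simp [mul_comm]

theorem mon_mono {d d' : ℕ} (h : d ≤ d') : Vd p F d ≤ Vd p F d' := by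
  intro x hx
  have hx' : x ∈ Polynomial.degreeLT F d := hx
  exact Polynomial.degreeLT_mono h hx'

/-- passing to a smaller degree -/
theorem mon (j : ℕ) (l : F[X] →ₗ[ZMod p] ZMod p) {d n : ℕ} (h : d ≤ n) :
    finrank (ZMod p) (H (bet j l) (Vd p F n)) ≤
      finrank (ZMod p) (H (bet j l) (Vd p F d)) + finrank (ZMod p) F * (n - d) := by
  haveI := mon_fin (p := p) (F := F) d
  haveI := mon_fin (p := p) (F := F) n
  have hHn : H (bet j l) (Vd p F n) ≤ Vd p F n := inf_le_left
  have hHd : H (bet j l) (Vd p F d) ≤ Vd p F d := inf_le_left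
  haveI : FiniteDimensional (ZMod p) (H (bet j l) (Vd p F n)) :=
    Submodule.finiteDimensional_of_le hHn
  haveI : FiniteDimensional (ZMod p) (H (bet j l) (Vd p F d)) :=
    Submodule.finiteDimensional_of_le hHd
  have h1 := Submodule.finrank_sup_add_finrank_inf_eq (H (bet j l) (Vd p F n)) (Vd p F d)
  have h2 : finrank (ZMod p) (H (bet j l) (Vd p F n) ⊔ Vd p F d : Submodule (ZMod p) F[X]) ≤
      finrank (ZMod p) (Vd p F n) :=
    Submodule.finrank_mono (sup_le hHn (mon_mono h))
  have h3 : finrank (ZMod p) (H (bet j l) (Vd p F n) ⊓ Vd p F d : Submodule (ZMod p) F[X]) ≤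
      finrank (ZMod p) (H (bet j l) (Vd p F d)) := by
    apply Submodule.finrank_mono
    rintro x ⟨hx, hxd⟩
    refine ⟨hxd, ?_⟩
    have hx2 : (aL (bet j l) (Vd p F n) + aR (bet j l) (Vd p F n)) x = 0 :=
      LinearMap.mem_ker.1 hx.2
    refine LinearMap.mem_ker.2 ?_
    ext ⟨y, hy⟩
    have := LinearMap.congr_fun hx2 ⟨y, mon_mono h hy⟩
    exact this
  rw [mon_finrank] at h1 h2
  have h4 : finrank (ZMod p) F * n = finrank (ZMod p) F * d + finrank (ZMod p) F * (n - d) := by
    rw [← mul_add]; congr 1; omega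
  omega

end poly

end Pool.Agent.Helper25.MW
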